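import Mathlib

set_option autoImplicit false
set_option linter.unusedSimpArgs false
set_option linter.unusedVariables false

/-!
# Unicyclic SSP graphs of girth four: a graph that is not a tadpole (MP_3aeeeb_co)

The graph on `0, ..., 7` with edges `01, 12, 23, 34, 14, 45, 56, 67` (a four-cycle `1234` with a
pendant vertex at `1` and a path with three vertices at the adjacent vertex `4`) is unicyclic of
girth four, every matrix described by it has the strong spectral property, and it is neither a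
cycle nor a tadpole graph.

Proof.  Let `H` be the path `0 1 2 3`, let `B` be the block of the matrix on `H` and `u` the column
of `4` restricted to `H`.  The commutation relations give that the columns `4, 5, 6, 7` of `X` are
orthogonal to `u` on `H`, and that they are obtained from the column `7` by a three-term recursion
with `B`; so the column `7` is orthogonal to `u, B u, B^2 u, B^3 u` and, by Cayley and Hamilton, to
all `B^j u`.  Hence `B` applied to the column `4` is orthogonal to `u` also, and this gives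
`2 a_14 a_34 x_13 = 0`.  The other entries of `X` vanish one after the other.
-/

namespace Pool.Agent.Results.MP_3aeeeb_co.AdjacentArms

open Matrix

/-- `A` belongs to `S(G)`: it is symmetric and its nonzero off-diagonal entries are those at the
edges of `G`. -/
def InS {V : Type} (G : SimpleGraph V) (A : Matrix V V ℝ) : Prop :=
  A.IsSymm ∧ ∀ i j, i ≠ j → (A i j ≠ 0 ↔ G.Adj i j)

/-- The strong spectral property. -/
def SSP {V : Type} [Fintype V] [DecidableEq V] (A : Matrix V V ℝ) : Prop :=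
  ∀ X : Matrix V V ℝ, X.IsSymm → A.hadamard X = 0 → (1 : Matrix V V ℝ).hadamard X = 0 →
    A * X - X * A = 0 → X = 0

/-- The class of the graphs `G` such that every matrix in `S(G)` has the SSP. -/
def GSSP {V : Type} [Fintype V] [DecidableEq V] (G : SimpleGraph V) : Prop :=
  ∀ A : Matrix V V ℝ, InS G A → SSP A

/-- `s` is the edge set of a cycle of `G`. -/
def IsCycleSet {V : Type} (G : SimpleGraph V) (s : Set (Sym2 V)) : Prop :=
  ∃ (v : V) (p : G.Walk v v), p.IsCycle ∧ {e | e ∈ p.edges} = s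

/-- Unicyclic graphs: connected graphs with exactly one cycle. -/
def Unicyclic {V : Type} (G : SimpleGraph V) : Prop :=
  G.Connected ∧ ∃! s : Set (Sym2 V), IsCycleSet G s

/-- The tadpole graph `T_{m,n}`: the cycle `0, ..., m - 1` with the path `m, ..., m + n - 1` attached
to `m - 1`; for `n = 0` this is the cycle `C_m` itself. -/
def tadpole (m n : ℕ) : SimpleGraph (Fin (m + n)) :=
  SimpleGraph.fromRel fun i j => i.val + 1 = j.val ∨ (i.val = 0 ∧ j.val + 1 = m)

/-- Half of the adjacency relation of the graph. -/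
def adjB (i j : Fin 8) : Bool :=
  decide ((i.val, j.val) ∈ [(0, 1), (1, 2), (2, 3), (3, 4), (1, 4), (4, 5), (5, 6), (6, 7)])

/-- The four-cycle `1 2 3 4` with the pendant vertex `0` at `1` and the path `5 6 7` at `4`. -/
def G8 : SimpleGraph (Fin 8) where
  Adj i j := adjB i j = true ∨ adjB j i = true
  symm := ⟨fun _ _ h => h.symm⟩
  loopless := ⟨by decide⟩

instance : DecidableRel G8.Adj := fun i j => inferInstanceAs (Decidable (_ ∨ _))


/-! ### Linear algebra -/

/-- Cayley and Hamilton. -/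
lemma krylov {n : ℕ} (B : Matrix (Fin n) (Fin n) ℝ) (u f : Fin n → ℝ)
    (h : ∀ j, j < n → u ⬝ᵥ ((B ^ j) *ᵥ f) = 0) (j : ℕ) : u ⬝ᵥ ((B ^ j) *ᵥ f) = 0 := by
  rw [Matrix.pow_eq_aeval_mod_charpoly]
  set q := (Polynomial.X ^ j %ₘ B.charpoly) with hq
  have hd : ∀ i, n ≤ i → q.coeff i = 0 := by
    intro i hi
    apply Polynomial.coeff_eq_zero_of_degree_lt
    have h1 : q.degree < B.charpoly.degree :=
      Polynomial.degree_modByMonic_lt _ B.charpoly_monic
    rw [B.charpoly_degree_eq_dim, Fintype.card_fin] at h1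
    exact lt_of_lt_of_le h1 (by exact_mod_cast hi)
  rw [Polynomial.aeval_eq_sum_range, Matrix.sum_mulVec, dotProduct_sum]
  apply Finset.sum_eq_zero
  intro i _
  rw [Matrix.smul_mulVec, dotProduct_smul]
  by_cases hi : i < n
  · rw [h i hi, smul_zero]
  · rw [hd i (not_lt.1 hi), zero_smul]

/-- Orthogonality to the Krylov space of `u`. -/
lemma orth (B : Matrix (Fin 4) (Fin 4) ℝ) (u f4 f5 f6 f7 : Fin 4 → ℝ)
    (g3 d7 g2 d6 g1 d5 : ℝ) (n3 : g3 ≠ 0) (n2 : g2 ≠ 0) (n1 : g1 ≠ 0)
    (o7 : u ⬝ᵥ f7 = 0) (o6 : u ⬝ᵥ f6 = 0) (o5 : u ⬝ᵥ f5 = 0) (o4 : u ⬝ᵥ f4 = 0)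
    (h7 : B *ᵥ f7 = g3 • f6 + d7 • f7)
    (h6 : B *ᵥ f6 = g2 • f5 + d6 • f6 + g3 • f7)
    (h5 : B *ᵥ f5 = g1 • f4 + d5 • f5 + g2 • f6) : u ⬝ᵥ (B *ᵥ f4) = 0 := by
  have p1 : B ^ 1 *ᵥ f7 = g3 • f6 + d7 • f7 := by rw [pow_one, h7]
  have p2 : B ^ 2 *ᵥ f7 = g3 • (g2 • f5 + d6 • f6 + g3 • f7) + d7 • (g3 • f6 + d7 • f7) := by
    rw [pow_succ', ← Matrix.mulVec_mulVec, p1, Matrix.mulVec_add, Matrix.mulVec_smul,
      Matrix.mulVec_smul, h6, h7]
  have p3 : B ^ 3 *ᵥ f7 = g3 • (g2 • (g1 • f4 + d5 • f5 + g2 • f6) +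
      d6 • (g2 • f5 + d6 • f6 + g3 • f7) + g3 • (g3 • f6 + d7 • f7)) +
      d7 • (g3 • (g2 • f5 + d6 • f6 + g3 • f7) + d7 • (g3 • f6 + d7 • f7)) := by
    rw [pow_succ', ← Matrix.mulVec_mulVec, p2]
    simp only [Matrix.mulVec_add, Matrix.mulVec_smul, h5, h6, h7]
  have K := krylov B u f7 (by
    intro j hj
    interval_cases j
    · rw [pow_zero, Matrix.one_mulVec, o7]
    · rw [p1]
      simp only [dotProduct_add, dotProduct_smul, o7, o6, smul_zero, add_zero]
    · rw [p2]
      simp only [dotProduct_add, dotProduct_smul, o7, o6, o5, smul_zero, add_zero]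
    · rw [p3]
      simp only [dotProduct_add, dotProduct_smul, o7, o6, o5, o4, smul_zero, add_zero])
  have k4 := K 4
  rw [pow_succ', ← Matrix.mulVec_mulVec, p3] at k4
  simp only [Matrix.mulVec_add, Matrix.mulVec_smul, h5, h6, h7, dotProduct_add, dotProduct_smul,
    o7, o6, o5, o4, smul_zero, add_zero, smul_eq_mul] at k4
  have hne : g3 * (g2 * g1) ≠ 0 := mul_ne_zero n3 (mul_ne_zero n2 n1)
  have : g3 * (g2 * g1) * (u ⬝ᵥ (B *ᵥ f4)) = 0 := by linarith [k4]
  exact (mul_eq_zero.1 this).resolve_left hne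

lemma v0 (a b c d : ℝ) : (![a, b, c, d] : Fin 4 → ℝ) 0 = a := rfl
lemma v1 (a b c d : ℝ) : (![a, b, c, d] : Fin 4 → ℝ) 1 = b := rfl
lemma v2 (a b c d : ℝ) : (![a, b, c, d] : Fin 4 → ℝ) 2 = c := rfl
lemma v3 (a b c d : ℝ) : (![a, b, c, d] : Fin 4 → ℝ) 3 = d := rfl

lemma mv (a b c d e f g x y z w : ℝ) :
    !![a, b, 0, 0; b, c, d, 0; 0, d, e, f; 0, 0, f, g] *ᵥ ![x, y, z, w] =
      ![a * x + b * y, b * x + c * y + d * z, d * y + e * z + f * w, f * z + g * w] := by
  ext i
  fin_cases i <;> simp [Matrix.mulVec, dotProduct, Fin.sum_univ_four]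

lemma vext {f g : Fin 4 → ℝ} (h0 : f 0 = g 0) (h1 : f 1 = g 1) (h2 : f 2 = g 2)
    (h3 : f 3 = g 3) : f = g := by
  ext i
  fin_cases i
  exacts [h0, h1, h2, h3]

/-- The linear algebra of the eight by eight matrices. -/
lemma core (A X : Matrix (Fin 8) (Fin 8) ℝ) (hA : InS G8 A) (hX : X.IsSymm)
    (hAX : A.hadamard X = 0) (hIX : (1 : Matrix (Fin 8) (Fin 8) ℝ).hadamard X = 0)
    (hc : A * X - X * A = 0) : X = 0 := by
  obtain ⟨hAs, hAp⟩ := hA
  have az : ∀ i j, i ≠ j → ¬ G8.Adj i j → A i j = 0 := by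
    intro i j hij hn
    by_contra h
    exact hn ((hAp i j hij).1 h)
  have an : ∀ i j, G8.Adj i j → A i j ≠ 0 := by
    intro i j h
    exact (hAp i j h.ne).2 h
  have xe : ∀ i j, G8.Adj i j → X i j = 0 := by
    intro i j h
    have h1 := congrFun (congrFun hAX i) j
    rw [Matrix.hadamard_apply, Matrix.zero_apply] at h1
    exact (mul_eq_zero.1 h1).resolve_left (an i j h)
  have xd : ∀ i, X i i = 0 := by
    intro i
    have h1 := congrFun (congrFun hIX i) i
    rw [Matrix.hadamard_apply, Matrix.zero_apply, Matrix.one_apply_eq, one_mul] at h1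
    exact h1
  have cm : ∀ i j, (∑ k, A i k * X k j) = ∑ k, X i k * A k j := by
    intro i j
    have h1 := congrFun (congrFun (sub_eq_zero.1 hc) i) j
    rw [Matrix.mul_apply, Matrix.mul_apply] at h1
    exact h1
  have a02 : A 0 2 = 0 := az _ _ (by decide) (by decide)
  have a03 : A 0 3 = 0 := az _ _ (by decide) (by decide)
  have a04 : A 0 4 = 0 := az _ _ (by decide) (by decide)
  have a05 : A 0 5 = 0 := az _ _ (by decide) (by decide)
  have a06 : A 0 6 = 0 := az _ _ (by decide) (by decide)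
  have a07 : A 0 7 = 0 := az _ _ (by decide) (by decide)
  have a13 : A 1 3 = 0 := az _ _ (by decide) (by decide)
  have a15 : A 1 5 = 0 := az _ _ (by decide) (by decide)
  have a16 : A 1 6 = 0 := az _ _ (by decide) (by decide)
  have a17 : A 1 7 = 0 := az _ _ (by decide) (by decide)
  have a20 : A 2 0 = 0 := az _ _ (by decide) (by decide)
  have a24 : A 2 4 = 0 := az _ _ (by decide) (by decide)
  have a25 : A 2 5 = 0 := az _ _ (by decide) (by decide)
  have a26 : A 2 6 = 0 := az _ _ (by decide) (by decide)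
  have a27 : A 2 7 = 0 := az _ _ (by decide) (by decide)
  have a30 : A 3 0 = 0 := az _ _ (by decide) (by decide)
  have a31 : A 3 1 = 0 := az _ _ (by decide) (by decide)
  have a35 : A 3 5 = 0 := az _ _ (by decide) (by decide)
  have a36 : A 3 6 = 0 := az _ _ (by decide) (by decide)
  have a37 : A 3 7 = 0 := az _ _ (by decide) (by decide)
  have a40 : A 4 0 = 0 := az _ _ (by decide) (by decide)
  have a42 : A 4 2 = 0 := az _ _ (by decide) (by decide)
  have a46 : A 4 6 = 0 := az _ _ (by decide) (by decide)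
  have a47 : A 4 7 = 0 := az _ _ (by decide) (by decide)
  have a50 : A 5 0 = 0 := az _ _ (by decide) (by decide)
  have a51 : A 5 1 = 0 := az _ _ (by decide) (by decide)
  have a52 : A 5 2 = 0 := az _ _ (by decide) (by decide)
  have a53 : A 5 3 = 0 := az _ _ (by decide) (by decide)
  have a57 : A 5 7 = 0 := az _ _ (by decide) (by decide)
  have a60 : A 6 0 = 0 := az _ _ (by decide) (by decide)
  have a61 : A 6 1 = 0 := az _ _ (by decide) (by decide)
  have a62 : A 6 2 = 0 := az _ _ (by decide) (by decide)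
  have a63 : A 6 3 = 0 := az _ _ (by decide) (by decide)
  have a64 : A 6 4 = 0 := az _ _ (by decide) (by decide)
  have a70 : A 7 0 = 0 := az _ _ (by decide) (by decide)
  have a71 : A 7 1 = 0 := az _ _ (by decide) (by decide)
  have a72 : A 7 2 = 0 := az _ _ (by decide) (by decide)
  have a73 : A 7 3 = 0 := az _ _ (by decide) (by decide)
  have a74 : A 7 4 = 0 := az _ _ (by decide) (by decide)
  have a75 : A 7 5 = 0 := az _ _ (by decide) (by decide)
  have x00 : X 0 0 = 0 := xd _
  have x01 : X 0 1 = 0 := xe _ _ (by decide)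
  have x10 : X 1 0 = 0 := xe _ _ (by decide)
  have x11 : X 1 1 = 0 := xd _
  have x12 : X 1 2 = 0 := xe _ _ (by decide)
  have x14 : X 1 4 = 0 := xe _ _ (by decide)
  have x21 : X 2 1 = 0 := xe _ _ (by decide)
  have x22 : X 2 2 = 0 := xd _
  have x23 : X 2 3 = 0 := xe _ _ (by decide)
  have x32 : X 3 2 = 0 := xe _ _ (by decide)
  have x33 : X 3 3 = 0 := xd _
  have x34 : X 3 4 = 0 := xe _ _ (by decide)
  have x41 : X 4 1 = 0 := xe _ _ (by decide)
  have x43 : X 4 3 = 0 := xe _ _ (by decide)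
  have x44 : X 4 4 = 0 := xd _
  have x45 : X 4 5 = 0 := xe _ _ (by decide)
  have x54 : X 5 4 = 0 := xe _ _ (by decide)
  have x55 : X 5 5 = 0 := xd _
  have x56 : X 5 6 = 0 := xe _ _ (by decide)
  have x65 : X 6 5 = 0 := xe _ _ (by decide)
  have x66 : X 6 6 = 0 := xd _
  have x67 : X 6 7 = 0 := xe _ _ (by decide)
  have x76 : X 7 6 = 0 := xe _ _ (by decide)
  have x77 : X 7 7 = 0 := xd _
  have sa10 : A 1 0 = A 0 1 := hAs.apply _ _
  have sa21 : A 2 1 = A 1 2 := hAs.apply _ _
  have sa32 : A 3 2 = A 2 3 := hAs.apply _ _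
  have sa43 : A 4 3 = A 3 4 := hAs.apply _ _
  have sa41 : A 4 1 = A 1 4 := hAs.apply _ _
  have sa54 : A 5 4 = A 4 5 := hAs.apply _ _
  have sa65 : A 6 5 = A 5 6 := hAs.apply _ _
  have sa76 : A 7 6 = A 6 7 := hAs.apply _ _
  have sx20 : X 2 0 = X 0 2 := hX.apply _ _
  have sx30 : X 3 0 = X 0 3 := hX.apply _ _
  have sx40 : X 4 0 = X 0 4 := hX.apply _ _
  have sx50 : X 5 0 = X 0 5 := hX.apply _ _
  have sx60 : X 6 0 = X 0 6 := hX.apply _ _
  have sx70 : X 7 0 = X 0 7 := hX.apply _ _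
  have sx31 : X 3 1 = X 1 3 := hX.apply _ _
  have sx51 : X 5 1 = X 1 5 := hX.apply _ _
  have sx61 : X 6 1 = X 1 6 := hX.apply _ _
  have sx71 : X 7 1 = X 1 7 := hX.apply _ _
  have sx42 : X 4 2 = X 2 4 := hX.apply _ _
  have sx52 : X 5 2 = X 2 5 := hX.apply _ _
  have sx62 : X 6 2 = X 2 6 := hX.apply _ _
  have sx72 : X 7 2 = X 2 7 := hX.apply _ _
  have sx53 : X 5 3 = X 3 5 := hX.apply _ _
  have sx63 : X 6 3 = X 3 6 := hX.apply _ _
  have sx73 : X 7 3 = X 3 7 := hX.apply _ _
  have sx64 : X 6 4 = X 4 6 := hX.apply _ _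
  have sx74 : X 7 4 = X 4 7 := hX.apply _ _
  have sx75 : X 7 5 = X 5 7 := hX.apply _ _
  have n01 : A 0 1 ≠ 0 := an _ _ (by decide)
  have n12 : A 1 2 ≠ 0 := an _ _ (by decide)
  have n23 : A 2 3 ≠ 0 := an _ _ (by decide)
  have n34 : A 3 4 ≠ 0 := an _ _ (by decide)
  have n14 : A 1 4 ≠ 0 := an _ _ (by decide)
  have n45 : A 4 5 ≠ 0 := an _ _ (by decide)
  have n56 : A 5 6 ≠ 0 := an _ _ (by decide)
  have n67 : A 6 7 ≠ 0 := an _ _ (by decide)
  have c67 := cm 6 7
  simp only [Fin.sum_univ_eight, a02, a03, a04, a05, a06, a07, a13, a15, a16, a17, a20, a24, a25, a26, a27, a30, a31, a35, a36, a37, a40, a42, a46, a47, a50, a51, a52, a53, a57, a60, a61, a62, a63, a64, a70, a71, a72, a73, a74, a75, x00, x01, x10, x11, x12, x14, x21, x22, x23, x32, x33, x34, x41, x43, x44, x45, x54, x55, x56, x65, x66, x67, x76, x77, sa10, sa21, sa32, sa43, sa41, sa54, sa65, sa76, sx20, sx30, sx40, sx50, sx60, sx70, sx31, sx51, sx61, sx71, sx42, sx52, sx62, sx72, sx53, sx63, sx73, sx64,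 sx74, sx75, mul_zero, zero_mul, add_zero, zero_add] at c67
  have z57 : X 5 7 = 0 := by
    rcases mul_eq_zero.1 c67 with h | h
    · exact absurd h n56
    · exact h
  have c57 := cm 5 7
  simp only [Fin.sum_univ_eight, a02, a03, a04, a05, a06, a07, a13, a15, a16, a17, a20, a24, a25, a26, a27, a30, a31, a35, a36, a37, a40, a42, a46, a47, a50, a51, a52, a53, a57, a60, a61, a62, a63, a64, a70, a71, a72, a73, a74, a75, x00, x01, x10, x11, x12, x14, x21, x22, x23, x32, x33, x34, x41, x43, x44, x45, x54, x55, x56, x65, x66, x67, x76, x77, sa10, sa21, sa32, sa43, sa41, sa54, sa65, sa76, sx20, sx30, sx40, sx50, sx60, sx70, sx31, sx51, sx61, sx71, sx42, sx52, sx62, sx72, sx53, sx63, sx73, sx64, sx74, sx75, z57, mul_zero, zero_mul, add_zero, zero_add] at c57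
  have z47 : X 4 7 = 0 := by
    rcases mul_eq_zero.1 c57 with h | h
    · exact absurd h n45
    · exact h
  have c56 := cm 5 6
  simp only [Fin.sum_univ_eight, a02, a03, a04, a05, a06, a07, a13, a15, a16, a17, a20, a24, a25, a26, a27, a30, a31, a35, a36, a37, a40, a42, a46, a47, a50, a51, a52, a53, a57, a60, a61, a62, a63, a64, a70, a71, a72, a73, a74, a75, x00, x01, x10, x11, x12, x14, x21, x22, x23, x32, x33, x34, x41, x43, x44, x45, x54, x55, x56, x65, x66, x67, x76, x77, sa10, sa21, sa32, sa43, sa41, sa54, sa65, sa76, sx20, sx30, sx40, sx50, sx60, sx70, sx31, sx51, sx61, sx71, sx42, sx52, sx62, sx72, sx53, sx63, sx73, sx64, sx74, sx75, z57, z47, mul_zero, zero_mul, add_zero, zero_add] at c56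
  have z46 : X 4 6 = 0 := by
    rcases mul_eq_zero.1 c56 with h | h
    · exact absurd h n45
    · exact h
  have c47 := cm 4 7
  simp only [Fin.sum_univ_eight, a02, a03, a04, a05, a06, a07, a13, a15, a16, a17, a20, a24, a25, a26, a27, a30, a31, a35, a36, a37, a40, a42, a46, a47, a50, a51, a52, a53, a57, a60, a61, a62, a63, a64, a70, a71, a72, a73, a74, a75, x00, x01, x10, x11, x12, x14, x21, x22, x23, x32, x33, x34, x41, x43, x44, x45, x54, x55, x56, x65, x66, x67, x76, x77, sa10, sa21, sa32, sa43, sa41, sa54, sa65, sa76, sx20, sx30, sx40, sx50, sx60, sx70, sx31, sx51, sx61, sx71, sx42, sx52, sx62, sx72, sx53, sx63, sx73, sx64, sx74, sx75, z57, z47, z46, mul_zero, zero_mul, add_zero, zero_add] at c47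
  have c46 := cm 4 6
  simp only [Fin.sum_univ_eight, a02, a03, a04, a05, a06, a07, a13, a15, a16, a17, a20, a24, a25, a26, a27, a30, a31, a35, a36, a37, a40, a42, a46, a47, a50, a51, a52, a53, a57, a60, a61, a62, a63, a64, a70, a71, a72, a73, a74, a75, x00, x01, x10, x11, x12, x14, x21, x22, x23, x32, x33, x34, x41, x43, x44, x45, x54, x55, x56, x65, x66, x67, x76, x77, sa10, sa21, sa32, sa43, sa41, sa54, sa65, sa76, sx20, sx30, sx40, sx50, sx60, sx70, sx31, sx51, sx61, sx71, sx42, sx52, sx62, sx72, sx53, sx63, sx73, sx64, sx74, sx75, z57, z47, z46, mul_zero, zero_mul, add_zero, zero_add] at c46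
  have c45 := cm 4 5
  simp only [Fin.sum_univ_eight, a02, a03, a04, a05, a06, a07, a13, a15, a16, a17, a20, a24, a25, a26, a27, a30, a31, a35, a36, a37, a40, a42, a46, a47, a50, a51, a52, a53, a57, a60, a61, a62, a63, a64, a70, a71, a72, a73, a74, a75, x00, x01, x10, x11, x12, x14, x21, x22, x23, x32, x33, x34, x41, x43, x44, x45, x54, x55, x56, x65, x66, x67, x76, x77, sa10, sa21, sa32, sa43, sa41, sa54, sa65, sa76, sx20, sx30, sx40, sx50, sx60, sx70, sx31, sx51, sx61, sx71, sx42, sx52, sx62, sx72, sx53, sx63, sx73, sx64, sx74, sx75, z57, z47, z46, mul_zero, zero_mul, add_zero, zero_add] at c45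
  have c07 := cm 0 7
  simp only [Fin.sum_univ_eight, a02, a03, a04, a05, a06, a07, a13, a15, a16, a17, a20, a24, a25, a26, a27, a30, a31, a35, a36, a37, a40, a42, a46, a47, a50, a51, a52, a53, a57, a60, a61, a62, a63, a64, a70, a71, a72, a73, a74, a75, x00, x01, x10, x11, x12, x14, x21, x22, x23, x32, x33, x34, x41, x43, x44, x45, x54, x55, x56, x65, x66, x67, x76, x77, sa10, sa21, sa32, sa43, sa41, sa54, sa65, sa76, sx20, sx30, sx40, sx50, sx60, sx70, sx31, sx51, sx61, sx71, sx42, sx52, sx62, sx72, sx53, sx63, sx73, sx64, sx74, sx75, z57, z47, z46, mul_zero, zero_mul, add_zero, zero_add] at c07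
  have c17 := cm 1 7
  simp only [Fin.sum_univ_eight, a02, a03, a04, a05, a06, a07, a13, a15, a16, a17, a20, a24, a25, a26, a27, a30, a31, a35, a36, a37, a40, a42, a46, a47, a50, a51, a52, a53, a57, a60, a61, a62, a63, a64, a70, a71, a72, a73, a74, a75, x00, x01, x10, x11, x12, x14, x21, x22, x23, x32, x33, x34, x41, x43, x44, x45, x54, x55, x56, x65, x66, x67, x76, x77, sa10, sa21, sa32, sa43, sa41, sa54, sa65, sa76, sx20, sx30, sx40, sx50, sx60, sx70, sx31, sx51, sx61, sx71, sx42, sx52, sx62, sx72, sx53, sx63, sx73, sx64, sx74, sx75, z57, z47, z46, mul_zero, zero_mul, add_zero, zero_add] at c17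
  have c27 := cm 2 7
  simp only [Fin.sum_univ_eight, a02, a03, a04, a05, a06, a07, a13, a15, a16, a17, a20, a24, a25, a26, a27, a30, a31, a35, a36, a37, a40, a42, a46, a47, a50, a51, a52, a53, a57, a60, a61, a62, a63, a64, a70, a71, a72, a73, a74, a75, x00, x01, x10, x11, x12, x14, x21, x22, x23, x32, x33, x34, x41, x43, x44, x45, x54, x55, x56, x65, x66, x67, x76, x77, sa10, sa21, sa32, sa43, sa41, sa54, sa65, sa76, sx20, sx30, sx40, sx50, sx60, sx70, sx31, sx51, sx61, sx71, sx42, sx52, sx62, sx72, sx53, sx63, sx73, sx64, sx74, sx75, z57, z47, z46, mul_zero, zero_mul, add_zero, zero_add] at c27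
  have c37 := cm 3 7
  simp only [Fin.sum_univ_eight, a02, a03, a04, a05, a06, a07, a13, a15, a16, a17, a20, a24, a25, a26, a27, a30, a31, a35, a36, a37, a40, a42, a46, a47, a50, a51, a52, a53, a57, a60, a61, a62, a63, a64, a70, a71, a72, a73, a74, a75, x00, x01, x10, x11, x12, x14, x21, x22, x23, x32, x33, x34, x41, x43, x44, x45, x54, x55, x56, x65, x66, x67, x76, x77, sa10, sa21, sa32, sa43, sa41, sa54, sa65, sa76, sx20, sx30, sx40, sx50, sx60, sx70, sx31, sx51, sx61, sx71, sx42, sx52, sx62, sx72, sx53, sx63, sx73, sx64, sx74, sx75, z57, z47, z46, mul_zero, zero_mul, add_zero, zero_add] at c37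
  have c06 := cm 0 6
  simp only [Fin.sum_univ_eight, a02, a03, a04, a05, a06, a07, a13, a15, a16, a17, a20, a24, a25, a26, a27, a30, a31, a35, a36, a37, a40, a42, a46, a47, a50, a51, a52, a53, a57, a60, a61, a62, a63, a64, a70, a71, a72, a73, a74, a75, x00, x01, x10, x11, x12, x14, x21, x22, x23, x32, x33, x34, x41, x43, x44, x45, x54, x55, x56, x65, x66, x67, x76, x77, sa10, sa21, sa32, sa43, sa41, sa54, sa65, sa76, sx20, sx30, sx40, sx50, sx60, sx70, sx31, sx51, sx61, sx71, sx42, sx52, sx62, sx72, sx53, sx63, sx73, sx64, sx74, sx75, z57, z47, z46, mul_zero, zero_mul, add_zero, zero_add] at c06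
  have c16 := cm 1 6
  simp only [Fin.sum_univ_eight, a02, a03, a04, a05, a06, a07, a13, a15, a16, a17, a20, a24, a25, a26, a27, a30, a31, a35, a36, a37, a40, a42, a46, a47, a50, a51, a52, a53, a57, a60, a61, a62, a63, a64, a70, a71, a72, a73, a74, a75, x00, x01, x10, x11, x12, x14, x21, x22, x23, x32, x33, x34, x41, x43, x44, x45, x54, x55, x56, x65, x66, x67, x76, x77, sa10, sa21, sa32, sa43, sa41, sa54, sa65, sa76, sx20, sx30, sx40, sx50, sx60, sx70, sx31, sx51, sx61, sx71, sx42, sx52, sx62, sx72, sx53, sx63, sx73, sx64, sx74, sx75, z57, z47, z46, mul_zero, zero_mul, add_zero, zero_add] at c16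
  have c26 := cm 2 6
  simp only [Fin.sum_univ_eight, a02, a03, a04, a05, a06, a07, a13, a15, a16, a17, a20, a24, a25, a26, a27, a30, a31, a35, a36, a37, a40, a42, a46, a47, a50, a51, a52, a53, a57, a60, a61, a62, a63, a64, a70, a71, a72, a73, a74, a75, x00, x01, x10, x11, x12, x14, x21, x22, x23, x32, x33, x34, x41, x43, x44, x45, x54, x55, x56, x65, x66, x67, x76, x77, sa10, sa21, sa32, sa43, sa41, sa54, sa65, sa76, sx20, sx30, sx40, sx50, sx60, sx70, sx31, sx51, sx61, sx71, sx42, sx52, sx62, sx72, sx53, sx63, sx73, sx64, sx74, sx75, z57, z47, z46, mul_zero, zero_mul, add_zero, zero_add] at c26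
  have c36 := cm 3 6
  simp only [Fin.sum_univ_eight, a02, a03, a04, a05, a06, a07, a13, a15, a16, a17, a20, a24, a25, a26, a27, a30, a31, a35, a36, a37, a40, a42, a46, a47, a50, a51, a52, a53, a57, a60, a61, a62, a63, a64, a70, a71, a72, a73, a74, a75, x00, x01, x10, x11, x12, x14, x21, x22, x23, x32, x33, x34, x41, x43, x44, x45, x54, x55, x56, x65, x66, x67, x76, x77, sa10, sa21, sa32, sa43, sa41, sa54, sa65, sa76, sx20, sx30, sx40, sx50, sx60, sx70, sx31, sx51, sx61, sx71, sx42, sx52, sx62, sx72, sx53, sx63, sx73, sx64, sx74, sx75, z57, z47, z46, mul_zero, zero_mul, add_zero, zero_add] at c36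
  have c05 := cm 0 5
  simp only [Fin.sum_univ_eight, a02, a03, a04, a05, a06, a07, a13, a15, a16, a17, a20, a24, a25, a26, a27, a30, a31, a35, a36, a37, a40, a42, a46, a47, a50, a51, a52, a53, a57, a60, a61, a62, a63, a64, a70, a71, a72, a73, a74, a75, x00, x01, x10, x11, x12, x14, x21, x22, x23, x32, x33, x34, x41, x43, x44, x45, x54, x55, x56, x65, x66, x67, x76, x77, sa10, sa21, sa32, sa43, sa41, sa54, sa65, sa76, sx20, sx30, sx40, sx50, sx60, sx70, sx31, sx51, sx61, sx71, sx42, sx52, sx62, sx72, sx53, sx63, sx73, sx64, sx74, sx75, z57, z47, z46, mul_zero, zero_mul, add_zero, zero_add] at c05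
  have c15 := cm 1 5
  simp only [Fin.sum_univ_eight, a02, a03, a04, a05, a06, a07, a13, a15, a16, a17, a20, a24, a25, a26, a27, a30, a31, a35, a36, a37, a40, a42, a46, a47, a50, a51, a52, a53, a57, a60, a61, a62, a63, a64, a70, a71, a72, a73, a74, a75, x00, x01, x10, x11, x12, x14, x21, x22, x23, x32, x33, x34, x41, x43, x44, x45, x54, x55, x56, x65, x66, x67, x76, x77, sa10, sa21, sa32, sa43, sa41, sa54, sa65, sa76, sx20, sx30, sx40, sx50, sx60, sx70, sx31, sx51, sx61, sx71, sx42, sx52, sx62, sx72, sx53, sx63, sx73, sx64, sx74, sx75, z57, z47, z46, mul_zero, zero_mul, add_zero, zero_add] at c15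
  have c25 := cm 2 5
  simp only [Fin.sum_univ_eight, a02, a03, a04, a05, a06, a07, a13, a15, a16, a17, a20, a24, a25, a26, a27, a30, a31, a35, a36, a37, a40, a42, a46, a47, a50, a51, a52, a53, a57, a60, a61, a62, a63, a64, a70, a71, a72, a73, a74, a75, x00, x01, x10, x11, x12, x14, x21, x22, x23, x32, x33, x34, x41, x43, x44, x45, x54, x55, x56, x65, x66, x67, x76, x77, sa10, sa21, sa32, sa43, sa41, sa54, sa65, sa76, sx20, sx30, sx40, sx50, sx60, sx70, sx31, sx51, sx61, sx71, sx42, sx52, sx62, sx72, sx53, sx63, sx73, sx64, sx74, sx75, z57, z47, z46, mul_zero, zero_mul, add_zero, zero_add] at c25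
  have c35 := cm 3 5
  simp only [Fin.sum_univ_eight, a02, a03, a04, a05, a06, a07, a13, a15, a16, a17, a20, a24, a25, a26, a27, a30, a31, a35, a36, a37, a40, a42, a46, a47, a50, a51, a52, a53, a57, a60, a61, a62, a63, a64, a70, a71, a72, a73, a74, a75, x00, x01, x10, x11, x12, x14, x21, x22, x23, x32, x33, x34, x41, x43, x44, x45, x54, x55, x56, x65, x66, x67, x76, x77, sa10, sa21, sa32, sa43, sa41, sa54, sa65, sa76, sx20, sx30, sx40, sx50, sx60, sx70, sx31, sx51, sx61, sx71, sx42, sx52, sx62, sx72, sx53, sx63, sx73, sx64, sx74, sx75, z57, z47, z46, mul_zero, zero_mul, add_zero, zero_add] at c35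
  have c04 := cm 0 4
  simp only [Fin.sum_univ_eight, a02, a03, a04, a05, a06, a07, a13, a15, a16, a17, a20, a24, a25, a26, a27, a30, a31, a35, a36, a37, a40, a42, a46, a47, a50, a51, a52, a53, a57, a60, a61, a62, a63, a64, a70, a71, a72, a73, a74, a75, x00, x01, x10, x11, x12, x14, x21, x22, x23, x32, x33, x34, x41, x43, x44, x45, x54, x55, x56, x65, x66, x67, x76, x77, sa10, sa21, sa32, sa43, sa41, sa54, sa65, sa76, sx20, sx30, sx40, sx50, sx60, sx70, sx31, sx51, sx61, sx71, sx42, sx52, sx62, sx72, sx53, sx63, sx73, sx64, sx74, sx75, z57, z47, z46, mul_zero, zero_mul, add_zero, zero_add] at c04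
  have c14 := cm 1 4
  simp only [Fin.sum_univ_eight, a02, a03, a04, a05, a06, a07, a13, a15, a16, a17, a20, a24, a25, a26, a27, a30, a31, a35, a36, a37, a40, a42, a46, a47, a50, a51, a52, a53, a57, a60, a61, a62, a63, a64, a70, a71, a72, a73, a74, a75, x00, x01, x10, x11, x12, x14, x21, x22, x23, x32, x33, x34, x41, x43, x44, x45, x54, x55, x56, x65, x66, x67, x76, x77, sa10, sa21, sa32, sa43, sa41, sa54, sa65, sa76, sx20, sx30, sx40, sx50, sx60, sx70, sx31, sx51, sx61, sx71, sx42, sx52, sx62, sx72, sx53, sx63, sx73, sx64, sx74, sx75, z57, z47, z46, mul_zero, zero_mul, add_zero, zero_add] at c14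
  have c24 := cm 2 4
  simp only [Fin.sum_univ_eight, a02, a03, a04, a05, a06, a07, a13, a15, a16, a17, a20, a24, a25, a26, a27, a30, a31, a35, a36, a37, a40, a42, a46, a47, a50, a51, a52, a53, a57, a60, a61, a62, a63, a64, a70, a71, a72, a73, a74, a75, x00, x01, x10, x11, x12, x14, x21, x22, x23, x32, x33, x34, x41, x43, x44, x45, x54, x55, x56, x65, x66, x67, x76, x77, sa10, sa21, sa32, sa43, sa41, sa54, sa65, sa76, sx20, sx30, sx40, sx50, sx60, sx70, sx31, sx51, sx61, sx71, sx42, sx52, sx62, sx72, sx53, sx63, sx73, sx64, sx74, sx75, z57, z47, z46, mul_zero, zero_mul, add_zero, zero_add] at c24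
  have c34 := cm 3 4
  simp only [Fin.sum_univ_eight, a02, a03, a04, a05, a06, a07, a13, a15, a16, a17, a20, a24, a25, a26, a27, a30, a31, a35, a36, a37, a40, a42, a46, a47, a50, a51, a52, a53, a57, a60, a61, a62, a63, a64, a70, a71, a72, a73, a74, a75, x00, x01, x10, x11, x12, x14, x21, x22, x23, x32, x33, x34, x41, x43, x44, x45, x54, x55, x56, x65, x66, x67, x76, x77, sa10, sa21, sa32, sa43, sa41, sa54, sa65, sa76, sx20, sx30, sx40, sx50, sx60, sx70, sx31, sx51, sx61, sx71, sx42, sx52, sx62, sx72, sx53, sx63, sx73, sx64, sx74, sx75, z57, z47, z46, mul_zero, zero_mul, add_zero, zero_add] at c34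
  have c01 := cm 0 1
  simp only [Fin.sum_univ_eight, a02, a03, a04, a05, a06, a07, a13, a15, a16, a17, a20, a24, a25, a26, a27, a30, a31, a35, a36, a37, a40, a42, a46, a47, a50, a51, a52, a53, a57, a60, a61, a62, a63, a64, a70, a71, a72, a73, a74, a75, x00, x01, x10, x11, x12, x14, x21, x22, x23, x32, x33, x34, x41, x43, x44, x45, x54, x55, x56, x65, x66, x67, x76, x77, sa10, sa21, sa32, sa43, sa41, sa54, sa65, sa76, sx20, sx30, sx40, sx50, sx60, sx70, sx31, sx51, sx61, sx71, sx42, sx52, sx62, sx72, sx53, sx63, sx73, sx64, sx74, sx75, z57, z47, z46, mul_zero, zero_mul, add_zero, zero_add] at c01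
  have c02 := cm 0 2
  simp only [Fin.sum_univ_eight, a02, a03, a04, a05, a06, a07, a13, a15, a16, a17, a20, a24, a25, a26, a27, a30, a31, a35, a36, a37, a40, a42, a46, a47, a50, a51, a52, a53, a57, a60, a61, a62, a63, a64, a70, a71, a72, a73, a74, a75, x00, x01, x10, x11, x12, x14, x21, x22, x23, x32, x33, x34, x41, x43, x44, x45, x54, x55, x56, x65, x66, x67, x76, x77, sa10, sa21, sa32, sa43, sa41, sa54, sa65, sa76, sx20, sx30, sx40, sx50, sx60, sx70, sx31, sx51, sx61, sx71, sx42, sx52, sx62, sx72, sx53, sx63, sx73, sx64, sx74, sx75, z57, z47, z46, mul_zero, zero_mul, add_zero, zero_add] at c02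
  have c03 := cm 0 3
  simp only [Fin.sum_univ_eight, a02, a03, a04, a05, a06, a07, a13, a15, a16, a17, a20, a24, a25, a26, a27, a30, a31, a35, a36, a37, a40, a42, a46, a47, a50, a51, a52, a53, a57, a60, a61, a62, a63, a64, a70, a71, a72, a73, a74, a75, x00, x01, x10, x11, x12, x14, x21, x22, x23, x32, x33, x34, x41, x43, x44, x45, x54, x55, x56, x65, x66, x67, x76, x77, sa10, sa21, sa32, sa43, sa41, sa54, sa65, sa76, sx20, sx30, sx40, sx50, sx60, sx70, sx31, sx51, sx61, sx71, sx42, sx52, sx62, sx72, sx53, sx63, sx73, sx64, sx74, sx75, z57, z47, z46, mul_zero, zero_mul, add_zero, zero_add] at c03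
  have c12 := cm 1 2
  simp only [Fin.sum_univ_eight, a02, a03, a04, a05, a06, a07, a13, a15, a16, a17, a20, a24, a25, a26, a27, a30, a31, a35, a36, a37, a40, a42, a46, a47, a50, a51, a52, a53, a57, a60, a61, a62, a63, a64, a70, a71, a72, a73, a74, a75, x00, x01, x10, x11, x12, x14, x21, x22, x23, x32, x33, x34, x41, x43, x44, x45, x54, x55, x56, x65, x66, x67, x76, x77, sa10, sa21, sa32, sa43, sa41, sa54, sa65, sa76, sx20, sx30, sx40, sx50, sx60, sx70, sx31, sx51, sx61, sx71, sx42, sx52, sx62, sx72, sx53, sx63, sx73, sx64, sx74, sx75, z57, z47, z46, mul_zero, zero_mul, add_zero, zero_add] at c12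
  have c13 := cm 1 3
  simp only [Fin.sum_univ_eight, a02, a03, a04, a05, a06, a07, a13, a15, a16, a17, a20, a24, a25, a26, a27, a30, a31, a35, a36, a37, a40, a42, a46, a47, a50, a51, a52, a53, a57, a60, a61, a62, a63, a64, a70, a71, a72, a73, a74, a75, x00, x01, x10, x11, x12, x14, x21, x22, x23, x32, x33, x34, x41, x43, x44, x45, x54, x55, x56, x65, x66, x67, x76, x77, sa10, sa21, sa32, sa43, sa41, sa54, sa65, sa76, sx20, sx30, sx40, sx50, sx60, sx70, sx31, sx51, sx61, sx71, sx42, sx52, sx62, sx72, sx53, sx63, sx73, sx64, sx74, sx75, z57, z47, z46, mul_zero, zero_mul, add_zero, zero_add] at c13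
  have c23 := cm 2 3
  simp only [Fin.sum_univ_eight, a02, a03, a04, a05, a06, a07, a13, a15, a16, a17, a20, a24, a25, a26, a27, a30, a31, a35, a36, a37, a40, a42, a46, a47, a50, a51, a52, a53, a57, a60, a61, a62, a63, a64, a70, a71, a72, a73, a74, a75, x00, x01, x10, x11, x12, x14, x21, x22, x23, x32, x33, x34, x41, x43, x44, x45, x54, x55, x56, x65, x66, x67, x76, x77, sa10, sa21, sa32, sa43, sa41, sa54, sa65, sa76, sx20, sx30, sx40, sx50, sx60, sx70, sx31, sx51, sx61, sx71, sx42, sx52, sx62, sx72, sx53, sx63, sx73, sx64, sx74, sx75, z57, z47, z46, mul_zero, zero_mul, add_zero, zero_add] at c23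
  have q4 := orth !![A 0 0, A 0 1, 0, 0; A 0 1, A 1 1, A 1 2, 0;
    0, A 1 2, A 2 2, A 2 3; 0, 0, A 2 3, A 3 3] ![0, A 1 4, 0, A 3 4]
    ![X 0 4, 0, X 2 4, 0] ![X 0 5, X 1 5, X 2 5, X 3 5] ![X 0 6, X 1 6, X 2 6, X 3 6]
    ![X 0 7, X 1 7, X 2 7, X 3 7] (A 6 7) (A 7 7) (A 5 6) (A 6 6) (A 4 5) (A 5 5) n67 n56 n45
    (by simp only [dotProduct, Fin.sum_univ_four, v0, v1, v2, v3]; linarith [c47])
    (by simp only [dotProduct, Fin.sum_univ_four, v0, v1, v2, v3]; linarith [c46])
    (by simp only [dotProduct, Fin.sum_univ_four, v0, v1, v2, v3]; linarith [c45])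
    (by simp only [dotProduct, Fin.sum_univ_four, v0, v1, v2, v3]; ring)
    (by
      rw [mv]
      apply vext <;>
        simp only [v0, v1, v2, v3, Pi.add_apply, Pi.smul_apply, smul_eq_mul] <;>
        linarith [c07, c17, c27, c37])
    (by
      rw [mv]
      apply vext <;>
        simp only [v0, v1, v2, v3, Pi.add_apply, Pi.smul_apply, smul_eq_mul] <;>
        linarith [c06, c16, c26, c36])
    (by
      rw [mv]
      apply vext <;>
        simp only [v0, v1, v2, v3, Pi.add_apply, Pi.smul_apply, smul_eq_mul] <;>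
        linarith [c05, c15, c25, c35])
  rw [mv] at q4
  simp only [dotProduct, Fin.sum_univ_four, v0, v1, v2, v3] at q4
  have z13 : X 1 3 = 0 := by
    have h1 : 2 * (A 1 4 * A 3 4) * X 1 3 = 0 := by
      linear_combination q4 - A 1 4 * c14 - A 3 4 * c34 - A 4 5 * c45
    have h2 : 2 * (A 1 4 * A 3 4) ≠ 0 := mul_ne_zero two_ne_zero (mul_ne_zero n14 n34)
    exact (mul_eq_zero.1 h1).resolve_left h2
  have z24 : X 2 4 = 0 := by
    have h1 : A 3 4 * X 2 4 = 0 := by rw [z13] at c23; linarith [c23]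
    exact (mul_eq_zero.1 h1).resolve_left n34
  have z02 : X 0 2 = 0 := by
    have h1 : A 0 1 * X 0 2 = 0 := by rw [z13, z24] at c12; linarith [c12]
    exact (mul_eq_zero.1 h1).resolve_left n01
  have z03 : X 0 3 = 0 := by
    have h1 : A 2 3 * X 0 3 = 0 := by rw [z02] at c02; linarith [c02]
    exact (mul_eq_zero.1 h1).resolve_left n23
  have z04 : X 0 4 = 0 := by
    have h1 : A 1 4 * X 0 4 = 0 := by rw [z02] at c01; linarith [c01]
    exact (mul_eq_zero.1 h1).resolve_left n14
  rw [z03, z04] at c04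
  rw [z13, z04, z24] at c14
  rw [z24] at c24
  rw [z24, z13] at c34
  have z05 : X 0 5 = 0 := (mul_eq_zero.1 (by linarith [c04] : A 4 5 * X 0 5 = 0)).resolve_left n45
  have z15 : X 1 5 = 0 := (mul_eq_zero.1 (by linarith [c14] : A 4 5 * X 1 5 = 0)).resolve_left n45
  have z25 : X 2 5 = 0 := (mul_eq_zero.1 (by linarith [c24] : A 4 5 * X 2 5 = 0)).resolve_left n45
  have z35 : X 3 5 = 0 := (mul_eq_zero.1 (by linarith [c34] : A 4 5 * X 3 5 = 0)).resolve_left n45
  rw [z04, z05, z15] at c05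
  rw [z05, z15, z25] at c15
  rw [z24, z15, z25, z35] at c25
  rw [z25, z35] at c35
  have z06 : X 0 6 = 0 := (mul_eq_zero.1 (by linarith [c05] : A 5 6 * X 0 6 = 0)).resolve_left n56
  have z16 : X 1 6 = 0 := (mul_eq_zero.1 (by linarith [c15] : A 5 6 * X 1 6 = 0)).resolve_left n56
  have z26 : X 2 6 = 0 := (mul_eq_zero.1 (by linarith [c25] : A 5 6 * X 2 6 = 0)).resolve_left n56
  have z36 : X 3 6 = 0 := (mul_eq_zero.1 (by linarith [c35] : A 5 6 * X 3 6 = 0)).resolve_left n56
  rw [z05, z06, z16] at c06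
  rw [z06, z16, z15, z26] at c16
  rw [z25, z26, z16, z36] at c26
  rw [z26, z36, z35] at c36
  have z07 : X 0 7 = 0 := (mul_eq_zero.1 (by linarith [c06] : A 6 7 * X 0 7 = 0)).resolve_left n67
  have z17 : X 1 7 = 0 := (mul_eq_zero.1 (by linarith [c16] : A 6 7 * X 1 7 = 0)).resolve_left n67
  have z27 : X 2 7 = 0 := (mul_eq_zero.1 (by linarith [c26] : A 6 7 * X 2 7 = 0)).resolve_left n67
  have z37 : X 3 7 = 0 := (mul_eq_zero.1 (by linarith [c36] : A 6 7 * X 3 7 = 0)).resolve_left n67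
  have y20 : X 2 0 = 0 := sx20.trans z02
  have y30 : X 3 0 = 0 := sx30.trans z03
  have y40 : X 4 0 = 0 := sx40.trans z04
  have y50 : X 5 0 = 0 := sx50.trans z05
  have y60 : X 6 0 = 0 := sx60.trans z06
  have y70 : X 7 0 = 0 := sx70.trans z07
  have y31 : X 3 1 = 0 := sx31.trans z13
  have y51 : X 5 1 = 0 := sx51.trans z15
  have y61 : X 6 1 = 0 := sx61.trans z16
  have y71 : X 7 1 = 0 := sx71.trans z17
  have y42 : X 4 2 = 0 := sx42.trans z24
  have y52 : X 5 2 = 0 := sx52.trans z25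
  have y62 : X 6 2 = 0 := sx62.trans z26
  have y72 : X 7 2 = 0 := sx72.trans z27
  have y53 : X 5 3 = 0 := sx53.trans z35
  have y63 : X 6 3 = 0 := sx63.trans z36
  have y73 : X 7 3 = 0 := sx73.trans z37
  have y64 : X 6 4 = 0 := sx64.trans z46
  have y74 : X 7 4 = 0 := sx74.trans z47
  have y75 : X 7 5 = 0 := sx75.trans z57
  ext i j
  fin_cases i <;> fin_cases j <;> assumption

/-! ### The graph -/

/-- The edge set of the four-cycle of `G8`. -/
def cyc : Set (Sym2 (Fin 8)) := {s(1, 2), s(2, 3), s(3, 4), s(1, 4)}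

lemma adj_cases : ∀ i j : Fin 8, G8.Adj i j → s(i, j) ∈ ([s(0, 1), s(1, 2), s(2, 3), s(3, 4),
    s(1, 4), s(4, 5), s(5, 6), s(6, 7)] : List (Sym2 (Fin 8))) := by decide

/-- A vertex of a cycle has two different neighbours along edges of the cycle. -/
lemma two_nbrs {v : Fin 8} {p : G8.Walk v v} (hp : p.IsCycle) {w : Fin 8} (hw : w ∈ p.support) :
    ∃ a b, a ≠ b ∧ s(w, a) ∈ p.edges ∧ s(w, b) ∈ p.edges := by
  have h := hp.ncard_neighborSet_toSubgraph_eq_two hw
  obtain ⟨a, b, hab, hs⟩ := Set.ncard_eq_two.1 h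
  refine ⟨a, b, hab, ?_, ?_⟩
  · have : a ∈ p.toSubgraph.neighborSet w := by rw [hs]; simp
    exact (SimpleGraph.Walk.mem_edges_toSubgraph p).1 this
  · have : b ∈ p.toSubgraph.neighborSet w := by rw [hs]; simp
    exact (SimpleGraph.Walk.mem_edges_toSubgraph p).1 this

lemma nb (i : Fin 8) (l : List (Fin 8)) (hl : ∀ j, G8.Adj i j → j ∈ l) {v : Fin 8}
    {p : G8.Walk v v} (hp : p.IsCycle) (hi : i ∈ p.support) :
    ∃ a ∈ l, ∃ b ∈ l, a ≠ b ∧ s(i, a) ∈ p.edges ∧ s(i, b) ∈ p.edges := by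
  obtain ⟨a, b, hab, ha, hb⟩ := two_nbrs hp hi
  exact ⟨a, hl _ (p.adj_of_mem_edges ha), b, hl _ (p.adj_of_mem_edges hb), hab, ha, hb⟩

lemma cycle_edges {v : Fin 8} {p : G8.Walk v v} (hp : p.IsCycle) :
    {e | e ∈ p.edges} = cyc := by
  have n0 : (0 : Fin 8) ∉ p.support := by
    intro h
    obtain ⟨a, ha, b, hb, hab, -, -⟩ := nb 0 [1] (by decide) hp h
    simp only [List.mem_singleton] at ha hb
    exact hab (ha.trans hb.symm)
  have n7 : (7 : Fin 8) ∉ p.support := by
    intro h
    obtain ⟨a, ha, b, hb, hab, -, -⟩ := nb 7 [6] (by decide) hp h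
    simp only [List.mem_singleton] at ha hb
    exact hab (ha.trans hb.symm)
  have n6 : (6 : Fin 8) ∉ p.support := by
    intro h
    obtain ⟨a, ha, b, hb, hab, h1, h2⟩ := nb 6 [5, 7] (by decide) hp h
    have h3 := p.snd_mem_support_of_mem_edges h1
    have h4 := p.snd_mem_support_of_mem_edges h2
    simp only [List.mem_cons, List.not_mem_nil, or_false] at ha hb
    rcases ha with rfl | rfl <;> rcases hb with rfl | rfl <;> first | exact hab rfl | exact n7 h3 | exact n7 h4
  have n5 : (5 : Fin 8) ∉ p.support := by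
    intro h
    obtain ⟨a, ha, b, hb, hab, h1, h2⟩ := nb 5 [4, 6] (by decide) hp h
    have h3 := p.snd_mem_support_of_mem_edges h1
    have h4 := p.snd_mem_support_of_mem_edges h2
    simp only [List.mem_cons, List.not_mem_nil, or_false] at ha hb
    rcases ha with rfl | rfl <;> rcases hb with rfl | rfl <;> first | exact hab rfl | exact n6 h3 | exact n6 h4
  have e1 : (1 : Fin 8) ∈ p.support → s(1, 2) ∈ p.edges ∧ s(1, 4) ∈ p.edges := by
    intro h
    obtain ⟨a, ha, b, hb, hab, h1, h2⟩ := nb 1 [0, 2, 4] (by decide) hp h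
    have h3 := p.snd_mem_support_of_mem_edges h1
    have h4 := p.snd_mem_support_of_mem_edges h2
    simp only [List.mem_cons, List.not_mem_nil, or_false] at ha hb
    rcases ha with rfl | rfl | rfl <;> rcases hb with rfl | rfl | rfl <;>
      first | exact absurd rfl hab | exact absurd h3 n0 | exact absurd h4 n0 | exact ⟨h1, h2⟩ | exact ⟨h2, h1⟩
  have e4 : (4 : Fin 8) ∈ p.support → s(4, 1) ∈ p.edges ∧ s(4, 3) ∈ p.edges := by
    intro h
    obtain ⟨a, ha, b, hb, hab, h1, h2⟩ := nb 4 [5, 1, 3] (by decide) hp h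
    have h3 := p.snd_mem_support_of_mem_edges h1
    have h4 := p.snd_mem_support_of_mem_edges h2
    simp only [List.mem_cons, List.not_mem_nil, or_false] at ha hb
    rcases ha with rfl | rfl | rfl <;> rcases hb with rfl | rfl | rfl <;>
      first | exact absurd rfl hab | exact absurd h3 n5 | exact absurd h4 n5 | exact ⟨h1, h2⟩ | exact ⟨h2, h1⟩
  have e2 : (2 : Fin 8) ∈ p.support → s(2, 1) ∈ p.edges ∧ s(2, 3) ∈ p.edges := by
    intro h
    obtain ⟨a, ha, b, hb, hab, h1, h2⟩ := nb 2 [1, 3] (by decide) hp h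
    simp only [List.mem_cons, List.not_mem_nil, or_false] at ha hb
    rcases ha with rfl | rfl <;> rcases hb with rfl | rfl <;>
      first | exact absurd rfl hab | exact ⟨h1, h2⟩ | exact ⟨h2, h1⟩
  have e3 : (3 : Fin 8) ∈ p.support → s(3, 2) ∈ p.edges ∧ s(3, 4) ∈ p.edges := by
    intro h
    obtain ⟨a, ha, b, hb, hab, h1, h2⟩ := nb 3 [2, 4] (by decide) hp h
    simp only [List.mem_cons, List.not_mem_nil, or_false] at ha hb
    rcases ha with rfl | rfl <;> rcases hb with rfl | rfl <;>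
      first | exact absurd rfl hab | exact ⟨h1, h2⟩ | exact ⟨h2, h1⟩
  have s1 : (1 : Fin 8) ∈ p.support := by
    have key : ∀ w : Fin 8, w ∈ p.support → (1 : Fin 8) ∈ p.support := by
      intro w hw
      fin_cases w
      · exact absurd hw n0
      · exact hw
      · exact p.snd_mem_support_of_mem_edges (e2 hw).1
      · exact p.snd_mem_support_of_mem_edges
          (e2 (p.snd_mem_support_of_mem_edges (e3 hw).1)).1
      · exact p.snd_mem_support_of_mem_edges (e4 hw).1
      · exact absurd hw n5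
      · exact absurd hw n6
      · exact absurd hw n7
    exact key v p.start_mem_support
  have s2 : (2 : Fin 8) ∈ p.support := p.snd_mem_support_of_mem_edges (e1 s1).1
  have s4 : (4 : Fin 8) ∈ p.support := p.snd_mem_support_of_mem_edges (e1 s1).2
  have s3 : (3 : Fin 8) ∈ p.support := p.snd_mem_support_of_mem_edges (e2 s2).2
  have sw : ∀ a b : Fin 8, s(a, b) = s(b, a) := fun a b => Sym2.eq_swap
  ext e
  constructor
  · intro he
    induction e with
    | _ x y =>
      have hx := p.fst_mem_support_of_mem_edges he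
      have hy := p.snd_mem_support_of_mem_edges he
      have hxy := adj_cases x y (p.adj_of_mem_edges he)
      simp only [List.mem_cons, List.not_mem_nil, or_false] at hxy
      simp only [cyc, Set.mem_insert_iff, Set.mem_singleton_iff]
      rcases hxy with h | h | h | h | h | h | h | h
      · exfalso
        rcases Sym2.eq_iff.1 h with ⟨h1, h2⟩ | ⟨h1, h2⟩
        · exact n0 (h1 ▸ hx)
        · exact n0 (h2 ▸ hy)
      · exact Or.inl h
      · exact Or.inr (Or.inl h)
      · exact Or.inr (Or.inr (Or.inl h))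
      · exact Or.inr (Or.inr (Or.inr h))
      · exfalso
        rcases Sym2.eq_iff.1 h with ⟨h1, h2⟩ | ⟨h1, h2⟩
        · exact n5 (h2 ▸ hy)
        · exact n5 (h1 ▸ hx)
      · exfalso
        rcases Sym2.eq_iff.1 h with ⟨h1, h2⟩ | ⟨h1, h2⟩
        · exact n5 (h1 ▸ hx)
        · exact n5 (h2 ▸ hy)
      · exfalso
        rcases Sym2.eq_iff.1 h with ⟨h1, h2⟩ | ⟨h1, h2⟩
        · exact n6 (h1 ▸ hx)
        · exact n6 (h2 ▸ hy)
  · intro he
    simp only [cyc, Set.mem_insert_iff, Set.mem_singleton_iff] at he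
    rcases he with rfl | rfl | rfl | rfl
    · exact (e1 s1).1
    · exact (e2 s2).2
    · exact (e3 s3).2
    · exact (e1 s1).2

/-- The walk around the four-cycle. -/
def theCycle : G8.Walk 1 1 :=
  SimpleGraph.Walk.cons (show G8.Adj 1 2 by decide) (SimpleGraph.Walk.cons
    (show G8.Adj 2 3 by decide) (SimpleGraph.Walk.cons (show G8.Adj 3 4 by decide)
      (SimpleGraph.Walk.cons (show G8.Adj 4 1 by decide) SimpleGraph.Walk.nil)))

lemma theCycle_isCycle : theCycle.IsCycle := by
  rw [SimpleGraph.Walk.isCycle_def]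
  refine ⟨?_, ?_, ?_⟩
  · rw [SimpleGraph.Walk.isTrail_def]
    decide
  · intro h
    cases h
  · decide

lemma conn : G8.Connected := by
  have h : ∀ v : Fin 8, G8.Reachable 1 v := by
    have r : ∀ a b : Fin 8, G8.Adj a b → G8.Reachable a b := fun a b h => h.reachable
    have r12 := r 1 2 (by decide)
    have r10 := r 1 0 (by decide)
    have r14 := r 1 4 (by decide)
    have r23 := r 2 3 (by decide)
    have r45 := r 4 5 (by decide)
    have r56 := r 5 6 (by decide)
    have r67 := r 6 7 (by decide)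
    intro v
    fin_cases v
    · exact r10
    · exact SimpleGraph.Reachable.refl _
    · exact r12
    · exact r12.trans r23
    · exact r14
    · exact r14.trans r45
    · exact (r14.trans r45).trans r56
    · exact ((r14.trans r45).trans r56).trans r67
  exact { preconnected := fun a b => (h a).symm.trans (h b), nonempty := ⟨0⟩ }

lemma unicyclic : Unicyclic G8 := by
  refine ⟨conn, cyc, ⟨1, theCycle, theCycle_isCycle, cycle_edges theCycle_isCycle⟩, ?_⟩
  rintro s ⟨v, p, hp, rfl⟩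
  exact cycle_edges hp

lemma cycle_length {v : Fin 8} {p : G8.Walk v v} (hp : p.IsCycle) : p.length = 4 := by
  have h1 := cycle_edges hp
  have h2 : p.edges.toFinset = {s(1, 2), s(2, 3), s(3, 4), s(1, 4)} := by
    ext e
    rw [List.mem_toFinset]
    have : e ∈ {e | e ∈ p.edges} ↔ e ∈ cyc := by rw [h1]
    simpa [cyc] using this
  have h3 := congrArg Finset.card h2
  rw [List.toFinset_card_of_nodup hp.edges_nodup, SimpleGraph.Walk.length_edges] at h3
  rw [h3]
  decide

lemma girth_eq : G8.girth = 4 := by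
  have h : ¬ G8.IsAcyclic := fun h => h theCycle theCycle_isCycle
  obtain ⟨a, w, hw, hg⟩ := SimpleGraph.exists_girth_eq_length.2 h
  rw [hg, cycle_length hw]

lemma tadpole_three {m n : ℕ} (hm : 4 ≤ m) {x a b c : Fin (m + n)} (hab : a ≠ b) (hac : a ≠ c)
    (hbc : b ≠ c) (ha : (tadpole m n).Adj x a) (hb : (tadpole m n).Adj x b)
    (hc : (tadpole m n).Adj x c) : x.val + 1 = m := by
  simp only [tadpole, SimpleGraph.fromRel_adj] at ha hb hc
  have h1 : a.val ≠ b.val := fun h => hab (Fin.ext h)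
  have h2 : a.val ≠ c.val := fun h => hac (Fin.ext h)
  have h3 : b.val ≠ c.val := fun h => hbc (Fin.ext h)
  omega

lemma not_tadpole (m n : ℕ) (hm : 4 ≤ m) : IsEmpty (G8 ≃g tadpole m n) := by
  refine ⟨fun f => ?_⟩
  have inj : ∀ a b : Fin 8, a ≠ b → f a ≠ f b := fun a b h h' => h (f.injective h')
  have ad : ∀ a b : Fin 8, G8.Adj a b → (tadpole m n).Adj (f a) (f b) :=
    fun a b h => f.map_adj_iff.2 h
  have h1 := tadpole_three hm (inj 0 2 (by decide)) (inj 0 4 (by decide)) (inj 2 4 (by decide))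
    (ad 1 0 (by decide)) (ad 1 2 (by decide)) (ad 1 4 (by decide))
  have h4 := tadpole_three hm (inj 1 3 (by decide)) (inj 1 5 (by decide)) (inj 3 5 (by decide))
    (ad 4 1 (by decide)) (ad 4 3 (by decide)) (ad 4 5 (by decide))
  exact inj 1 4 (by decide) (Fin.ext (by omega))

/-- There is a unicyclic graph of girth four in the class `GSSP` (all of whose matrices have the
strong spectral property) which is isomorphic neither to a cycle `C_4` or `C_5` (`n = 0`) nor to a
tadpole graph `T_{4,n}` or `T_{5,n}`. -/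
theorem result : ∃ G : SimpleGraph (Fin 8), Unicyclic G ∧ G.girth = 4 ∧ GSSP G ∧
    ∀ n : ℕ, IsEmpty (G ≃g tadpole 4 n) ∧ IsEmpty (G ≃g tadpole 5 n) :=
  ⟨G8, unicyclic, girth_eq, fun A hA X hX h1 h2 h3 => core A X hA hX h1 h2 h3,
    fun n => ⟨not_tadpole 4 n (by norm_num), not_tadpole 5 n (by norm_num)⟩⟩

end Pool.Agent.Results.MP_3aeeeb_co.AdjacentArms
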