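import Pool.Agent.R2.TailCore

/-!
# A unicyclic SSP graph of girth four that is not a tadpole

`horned n` is the `4`-cycle `n, n+2, n+3, n+4` with a pendant path `n-1, …, 1, 0` of length `n`
attached at the vertex `n` and a pendant vertex `n+1` attached at its neighbour `n+2` on the cycle.
For every `n ≥ 3` it is an SSP graph.
-/

set_option autoImplicit false

open Finset

namespace Pool.Agent.Results.MP_3aeeeb_co.HornedTadpole

/-- the symmetric matrices of a graph: for `i ≠ j` the entry is nonzero exactly on the edges, the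
diagonal is free -/
def InS {V : Type} (G : SimpleGraph V) (A : Matrix V V ℝ) : Prop :=
  A.IsSymm ∧ ∀ i j, i ≠ j → (A i j ≠ 0 ↔ G.Adj i j)

/-- the strong spectral property -/
def HasSSP {V : Type} [Fintype V] (A : Matrix V V ℝ) : Prop :=
  ∀ X : Matrix V V ℝ, X.IsSymm → (∀ i j, A i j * X i j = 0) → (∀ i, X i i = 0) →
    A * X = X * A → X = 0

/-- SSP graphs: every matrix of the graph has the strong spectral property -/
def IsSSPGraph {V : Type} [Fintype V] (G : SimpleGraph V) : Prop :=
  ∀ A : Matrix V V ℝ, InS G A → HasSSP A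

/-- the tadpole `T_{m,n}`: the cycle on `Fin m`, the path on `Fin n` and the bridge joining the
vertex `0` of the cycle to the end vertex `0` of the path -/
def tadpole (m n : ℕ) : SimpleGraph (Fin m ⊕ Fin n) :=
  SimpleGraph.fromRel fun x y =>
    match x, y with
    | .inl i, .inl j => (i.val + 1) % m = j.val
    | .inr i, .inr j => i.val + 1 = j.val
    | .inl i, .inr j => i.val = 0 ∧ j.val = 0
    | .inr _, .inl _ => False

/-- the cycle on `Fin m` -/
def cycle (m : ℕ) : SimpleGraph (Fin m) :=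
  SimpleGraph.fromRel fun i j => (i.val + 1) % m = j.val

/-- one direction of each edge of the horned tadpole -/
def rel (n i j : ℕ) : Prop :=
  (i + 1 = j ∧ i < n) ∨ (i = n ∧ j = n + 2) ∨ (i = n ∧ j = n + 4) ∨ (i = n + 1 ∧ j = n + 2) ∨
    (i = n + 2 ∧ j = n + 3) ∨ (i = n + 3 ∧ j = n + 4)

instance (n i j : ℕ) : Decidable (rel n i j) := by unfold rel; infer_instance

/-- the horned tadpole: the cycle `n, n+2, n+3, n+4`, the path `0, 1, …, n` and the pendant vertex
`n+1` at `n+2` -/
def horned (n : ℕ) : SimpleGraph (Fin (n + 5)) where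
  Adj i j := rel n i j ∨ rel n j i
  symm := ⟨fun _ _ h => h.symm⟩
  loopless := ⟨by
    intro i h
    unfold rel at h
    omega⟩

instance (n : ℕ) : DecidableRel (horned n).Adj := fun i j =>
  inferInstanceAs (Decidable (rel n i j ∨ rel n j i))

theorem horned_adj (n : ℕ) (i j : Fin (n + 5)) :
    (horned n).Adj i j ↔ rel n i j ∨ rel n j i := Iff.rfl

/-- the vertices as natural numbers -/
def f (n t : ℕ) : Fin (n + 5) := if h : t < n + 5 then ⟨t, h⟩ else ⟨0, by omega⟩

theorem f_val {n t : ℕ} (h : t < n + 5) : (f n t).val = t := by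
  unfold f; rw [dif_pos h]

theorem sum_f (n : ℕ) (F : Fin (n + 5) → ℝ) : ∑ k ∈ range (n + 5), F (f n k) = ∑ x, F x := by
  rw [Finset.sum_range]
  refine Finset.sum_congr rfl fun i _ => ?_
  congr 1
  exact Fin.ext (f_val i.2)

/-- **the horned tadpoles are SSP graphs** -/
theorem horned_ssp (n : ℕ) (hn : 3 ≤ n) : IsSSPGraph (horned n) := by
  intro A hA X hXs hAX hX0 hc
  obtain ⟨hAs, hAE⟩ := hA
  have nz : ∀ i j, i < n + 5 → j < n + 5 → (rel n i j ∨ rel n j i) → A (f n i) (f n j) ≠ 0 := by
    intro i j hi hj h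
    have h' : (horned n).Adj (f n i) (f n j) := by
      rw [horned_adj, f_val hi, f_val hj]; exact h
    exact (hAE _ _ h'.ne).2 h'
  have zz : ∀ i j, i < n + 5 → j < n + 5 → i ≠ j → ¬ (rel n i j ∨ rel n j i) →
      A (f n i) (f n j) = 0 := by
    intro i j hi hj hij h
    by_contra hne
    have hne' : f n i ≠ f n j := by
      intro h0
      have := congrArg Fin.val h0
      rw [f_val hi, f_val hj] at this
      exact hij this
    have := (hAE _ _ hne').1 hne
    rw [horned_adj, f_val hi, f_val hj] at this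
    exact h this
  have xz : ∀ i j, i < n + 5 → j < n + 5 → (rel n i j ∨ rel n j i) → X (f n i) (f n j) = 0 :=
    fun i j hi hj h => (mul_eq_zero.1 (hAX _ _)).resolve_left (nz i j hi hj h)
  -- the functions on the natural numbers
  set A' : ℕ → ℕ → ℝ := fun i j => A (f n i) (f n j) with hA'
  set X' : ℕ → ℕ → ℝ := fun i j => X (f n i) (f n j) with hX'
  have sA : ∀ i j, A' i j = A' j i := fun i j => (hAs.apply (f n j) (f n i)).trans rfl
  have sX : ∀ i j, X' i j = X' j i := fun i j => (hXs.apply (f n j) (f n i)).trans rfl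
  have d0 : ∀ i, X' i i = 0 := fun i => hX0 _
  have hcomm : ∀ i j, i < n + 1 + 4 → j < n + 1 + 4 →
      ∑ k ∈ range (n + 1 + 4), A' i k * X' k j = ∑ k ∈ range (n + 1 + 4), X' i k * A' k j := by
    intro i j _ _
    have h := congrFun (congrFun hc (f n i)) (f n j)
    rw [Matrix.mul_apply, Matrix.mul_apply, ← sum_f, ← sum_f] at h
    exact h
  have hA0 : ∀ i j, i < n → i + 1 < j → j < n + 1 + 4 → A' i j = 0 := fun i j h1 h2 h3 =>
    zz i j (by omega) (by omega) (by omega) (by unfold rel; omega)
  have hA1 : ∀ i, i < n → A' i (i + 1) ≠ 0 := fun i h =>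
    nz i (i + 1) (by omega) (by omega) (by unfold rel; omega)
  have hX1 : ∀ i, i < n → X' i (i + 1) = 0 := fun i h =>
    xz i (i + 1) (by omega) (by omega) (by unfold rel; omega)
  -- entries near the cycle
  have anr : A' n (n + 1) = 0 := zz _ _ (by omega) (by omega) (by omega) (by unfold rel; omega)
  have anc : A' n (n + 3) = 0 := zz _ _ (by omega) (by omega) (by omega) (by unfold rel; omega)
  have arc : A' (n + 1) (n + 3) = 0 := zz _ _ (by omega) (by omega) (by omega) (by unfold rel; omega)
  have ard : A' (n + 1) (n + 4) = 0 := zz _ _ (by omega) (by omega) (by omega) (by unfold rel; omega)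
  have abd : A' (n + 2) (n + 4) = 0 := zz _ _ (by omega) (by omega) (by omega) (by unfold rel; omega)
  have hα : A' n (n + 2) ≠ 0 := nz _ _ (by omega) (by omega) (by unfold rel; omega)
  have hβ : A' n (n + 4) ≠ 0 := nz _ _ (by omega) (by omega) (by unfold rel; omega)
  have hh : A' (n + 1) (n + 2) ≠ 0 := nz _ _ (by omega) (by omega) (by unfold rel; omega)
  have hk : A' (n + 2) (n + 3) ≠ 0 := nz _ _ (by omega) (by omega) (by unfold rel; omega)
  have hl : A' (n + 3) (n + 4) ≠ 0 := nz _ _ (by omega) (by omega) (by unfold rel; omega)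
  have xab : X' n (n + 2) = 0 := xz _ _ (by omega) (by omega) (by unfold rel; omega)
  have xad : X' n (n + 4) = 0 := xz _ _ (by omega) (by omega) (by unfold rel; omega)
  have xrb : X' (n + 1) (n + 2) = 0 := xz _ _ (by omega) (by omega) (by unfold rel; omega)
  have xbc : X' (n + 2) (n + 3) = 0 := xz _ _ (by omega) (by omega) (by unfold rel; omega)
  have xcd : X' (n + 3) (n + 4) = 0 := xz _ _ (by omega) (by omega) (by unfold rel; omega)
  -- the quadratic form
  have hXn : ∀ q : Fin 4, A' n (n + 1 + q) * X' n (n + 1 + q) = 0 := fun q => hAX _ _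
  have hq := R2.TailCore.gZg (M := 4) sA sX hA0 hA1 d0 hX1 hcomm hXn (by omega)
  have e0 : n + 1 + 0 = n + 1 := rfl
  have e1 : n + 1 + 1 = n + 2 := rfl
  have e2 : n + 1 + 2 = n + 3 := rfl
  have e3 : n + 1 + 3 = n + 4 := rfl
  simp only [Fin.sum_univ_four, Fin.val_zero, Fin.val_one, Fin.val_two, Fin.isValue,
    show ((3 : Fin 4) : ℕ) = 3 from rfl, e0, e1, e2, e3] at hq
  rw [anr, anc, d0 (n + 2), d0 (n + 4), sX (n + 4) (n + 2)] at hq
  have xbd : X' (n + 2) (n + 4) = 0 := by
    have : A' n (n + 2) * A' n (n + 4) * X' (n + 2) (n + 4) = 0 := by linear_combination hq / 2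
    exact (mul_eq_zero.1 this).resolve_left (mul_ne_zero hα hβ)
  -- rows split off
  have pz : ∀ i j, i ≤ n → j ≤ n → X' i j = 0 := fun i j hi hj =>
    R2.TailCore.pp (M := 4) sA sX hA0 hA1 d0 hX1 hcomm hi hj
  have hrow : ∀ i j, n < i → n < j → i < n + 5 → j < n + 5 →
      A' i n * X' n j + (A' i (n + 1) * X' (n + 1) j + A' i (n + 2) * X' (n + 2) j
        + A' i (n + 3) * X' (n + 3) j + A' i (n + 4) * X' (n + 4) j)
      = X' i n * A' n j + (X' i (n + 1) * A' (n + 1) j + X' i (n + 2) * A' (n + 2) j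
        + X' i (n + 3) * A' (n + 3) j + X' i (n + 4) * A' (n + 4) j) := by
    intro i j hi hj hi5 hj5
    have h := hcomm i j (by omega) (by omega)
    rw [Finset.sum_range_add _ (n + 1) 4, Finset.sum_range_add _ (n + 1) 4,
      Finset.sum_range_succ _ n, Finset.sum_range_succ _ n, Finset.sum_eq_zero (s := range n),
      Finset.sum_eq_zero (s := range n), zero_add, zero_add] at h
    · simpa only [Finset.sum_range_succ, Finset.sum_range_zero, zero_add, e0, e1, e2, e3] using h
    · intro k hk'
      rw [Finset.mem_range] at hk'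
      rw [hA0 k j hk' (by omega) (by omega), mul_zero]
    · intro k hk'
      rw [Finset.mem_range] at hk'
      rw [sA, hA0 k i hk' (by omega) (by omega), zero_mul]
  have r34 := hrow (n + 3) (n + 4) (by omega) (by omega) (by omega) (by omega)
  have r23 := hrow (n + 2) (n + 3) (by omega) (by omega) (by omega) (by omega)
  have r12 := hrow (n + 1) (n + 2) (by omega) (by omega) (by omega) (by omega)
  have r13 := hrow (n + 1) (n + 3) (by omega) (by omega) (by omega) (by omega)
  have sset1 := sA (n + 1) n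
  have sset2 := sA (n + 2) n
  have sset3 := sA (n + 3) n
  have sset4 := sA (n + 4) n
  have sset5 := sA (n + 2) (n + 1)
  have sset6 := sA (n + 3) (n + 1)
  have sset7 := sA (n + 4) (n + 1)
  have sset8 := sA (n + 3) (n + 2)
  have sset9 := sA (n + 4) (n + 2)
  have sset10 := sA (n + 4) (n + 3)
  have xset1 := sX (n + 1) n
  have xset2 := sX (n + 2) n
  have xset3 := sX (n + 3) n
  have xset4 := sX (n + 4) n
  have xset5 := sX (n + 2) (n + 1)
  have xset6 := sX (n + 3) (n + 1)
  have xset7 := sX (n + 4) (n + 1)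
  have xset8 := sX (n + 3) (n + 2)
  have xset9 := sX (n + 4) (n + 2)
  have xset10 := sX (n + 4) (n + 3)
  have d1 := d0 (n + 1)
  have d2 := d0 (n + 2)
  have d3 := d0 (n + 3)
  have d4 := d0 (n + 4)
  simp only [sset1, sset2, sset3, sset4, sset5, sset6, sset7, sset8, sset9, sset10, xset1, xset2,
    xset3, xset4, xset5, xset6, xset7, xset8, xset9, xset10, d1, d2, d3, d4, anr, anc, arc, ard,
    abd, xab, xad, xrb, xbc, xcd, xbd, mul_zero, zero_mul, add_zero, zero_add] at r34 r23 r12 r13
  -- ξ₃ = 0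
  have xac : X' n (n + 3) = 0 := by
    rcases mul_eq_zero.1 r34.symm with h | h
    · exact h
    · exact absurd h hβ
  rw [xac, mul_zero, zero_add] at r23
  have xrc : X' (n + 1) (n + 3) = 0 := by
    rcases mul_eq_zero.1 r23 with h | h
    · exact absurd h hh
    · exact h
  rw [xrc] at r12 r13
  have xar : X' n (n + 1) = 0 := by
    have : X' n (n + 1) * A' n (n + 2) = 0 := by linear_combination -r12
    exact (mul_eq_zero.1 this).resolve_right hα
  have xrd : X' (n + 1) (n + 4) = 0 := by
    have : X' (n + 1) (n + 4) * A' (n + 3) (n + 4) = 0 := by linear_combination -r13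
    exact (mul_eq_zero.1 this).resolve_right hl
  have hξ : ∀ i, i < n + 1 + 4 → X' i n = 0 := by
    intro i hi
    by_cases h1 : i ≤ n
    · exact pz i n h1 le_rfl
    · rw [sX]
      obtain h | h | h | h : i = n + 1 ∨ i = n + 2 ∨ i = n + 3 ∨ i = n + 4 := by omega
      · rw [h]; exact xar
      · rw [h]; exact xab
      · rw [h]; exact xac
      · rw [h]; exact xad
  have hZ : ∀ i j, n < i → n < j → i < n + 1 + 4 → j < n + 1 + 4 → X' i j = 0 := by
    intro i j h1 h2 h3 h4
    have hi : i = n + 1 ∨ i = n + 2 ∨ i = n + 3 ∨ i = n + 4 := by omega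
    have hj : j = n + 1 ∨ j = n + 2 ∨ j = n + 3 ∨ j = n + 4 := by omega
    rcases hi with h | h | h | h <;> rcases hj with h' | h' | h' | h' <;> subst h <;> subst h' <;>
    simp only [xset5, xset6, xset7, xset8, xset9, xset10, d1, d2, d3, d4, xrb, xbc, xcd, xbd, xrc,
      xrd]
  have hall := R2.TailCore.descend (M := 4) sA sX hA0 hA1 d0 hX1 hcomm hξ hZ
  ext x y
  have hx : f n x.1 = x := Fin.ext (f_val x.2)
  have hy : f n y.1 = y := Fin.ext (f_val y.2)
  have := hall x.1 y.1 x.2 y.2
  simp only [hX'] at this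
  rw [hx, hy] at this
  exact this

/-- a vertex of a tadpole with three different neighbours is the vertex `0` of the cycle -/
theorem tadpole_branch {m k : ℕ} (x y₁ y₂ y₃ : Fin m ⊕ Fin k) (h12 : y₁ ≠ y₂) (h13 : y₁ ≠ y₃)
    (h23 : y₂ ≠ y₃) (h1 : (tadpole m k).Adj x y₁) (h2 : (tadpole m k).Adj x y₂)
    (h3 : (tadpole m k).Adj x y₃) : ∃ i : Fin m, x = .inl i ∧ i.val = 0 := by
  have e : ∀ a : ℕ, a < m → ((a + 1) % m = if a + 1 = m then 0 else a + 1) := by
    intro a ha
    split_ifs with h
    · rw [h, Nat.mod_self]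
    · exact Nat.mod_eq_of_lt (by omega)
  unfold tadpole at h1 h2 h3
  rw [SimpleGraph.fromRel_adj] at h1 h2 h3
  rcases x with x | x
  · refine ⟨x, rfl, ?_⟩
    have hx := x.2
    rcases y₁ with y₁ | y₁ <;> rcases y₂ with y₂ | y₂ <;> rcases y₃ with y₃ | y₃ <;>
    have i1 := y₁.2 <;> have i2 := y₂.2 <;> have i3 := y₃.2 <;>
    simp only [ne_eq, Sum.inl.injEq, Sum.inr.injEq, Fin.ext_iff, reduceCtorEq,
      not_false_eq_true, true_and, or_false, false_or, e _ hx] at h12 h13 h23 h1 h2 h3 <;>
    (try rw [e _ i1] at h1) <;> (try rw [e _ i2] at h2) <;> (try rw [e _ i3] at h3) <;>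
    (try split_ifs at h1 h2 h3) <;> omega
  · exfalso
    have hx := x.2
    rcases y₁ with y₁ | y₁ <;> rcases y₂ with y₂ | y₂ <;> rcases y₃ with y₃ | y₃ <;>
    have i1 := y₁.2 <;> have i2 := y₂.2 <;> have i3 := y₃.2 <;>
    simp only [ne_eq, Sum.inl.injEq, Sum.inr.injEq, Fin.ext_iff, reduceCtorEq,
      not_false_eq_true, true_and, or_false, false_or] at h12 h13 h23 h1 h2 h3 <;>
    omega

/-- a vertex of a cycle does not have three different neighbours -/
theorem cycle_branch {m : ℕ} (x y₁ y₂ y₃ : Fin m) (h12 : y₁ ≠ y₂) (h13 : y₁ ≠ y₃)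
    (h23 : y₂ ≠ y₃) (h1 : (cycle m).Adj x y₁) (h2 : (cycle m).Adj x y₂)
    (h3 : (cycle m).Adj x y₃) : False := by
  have e : ∀ a : ℕ, a < m → ((a + 1) % m = if a + 1 = m then 0 else a + 1) := by
    intro a ha
    split_ifs with h
    · rw [h, Nat.mod_self]
    · exact Nat.mod_eq_of_lt (by omega)
  unfold cycle at h1 h2 h3
  rw [SimpleGraph.fromRel_adj] at h1 h2 h3
  have hx := x.2
  have i1 := y₁.2
  have i2 := y₂.2
  have i3 := y₃.2
  simp only [ne_eq, Fin.ext_iff] at h12 h13 h23 h1 h2 h3
  rw [e _ hx, e _ i1] at h1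
  rw [e _ hx, e _ i2] at h2
  rw [e _ hx, e _ i3] at h3
  split_ifs at h1 h2 h3 <;> omega

/-- the vertices `3` and `5` of `horned 3` have three different neighbours -/
theorem nb3 : (horned 3).Adj 3 2 ∧ (horned 3).Adj 3 5 ∧ (horned 3).Adj 3 7 := by decide

theorem nb5 : (horned 3).Adj 5 3 ∧ (horned 3).Adj 5 4 ∧ (horned 3).Adj 5 6 := by decide

theorem not_tadpole (m k : ℕ) : IsEmpty (horned 3 ≃g tadpole m k) := by
  constructor
  intro φ
  obtain ⟨i, hi, hi0⟩ := tadpole_branch (φ 3) (φ 2) (φ 5) (φ 7)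
    (fun h => absurd (φ.injective h) (by decide)) (fun h => absurd (φ.injective h) (by decide))
    (fun h => absurd (φ.injective h) (by decide)) (φ.map_rel_iff.2 nb3.1) (φ.map_rel_iff.2 nb3.2.1)
    (φ.map_rel_iff.2 nb3.2.2)
  obtain ⟨j, hj, hj0⟩ := tadpole_branch (φ 5) (φ 3) (φ 4) (φ 6)
    (fun h => absurd (φ.injective h) (by decide)) (fun h => absurd (φ.injective h) (by decide))
    (fun h => absurd (φ.injective h) (by decide)) (φ.map_rel_iff.2 nb5.1) (φ.map_rel_iff.2 nb5.2.1)
    (φ.map_rel_iff.2 nb5.2.2)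
  have hij : i = j := Fin.ext (by omega)
  have : φ 3 = φ 5 := by rw [hi, hj, hij]
  exact absurd (φ.injective this) (by decide)

theorem not_cycle (m : ℕ) : IsEmpty (horned 3 ≃g cycle m) := by
  constructor
  intro φ
  exact cycle_branch (φ 3) (φ 2) (φ 5) (φ 7)
    (fun h => absurd (φ.injective h) (by decide)) (fun h => absurd (φ.injective h) (by decide))
    (fun h => absurd (φ.injective h) (by decide)) (φ.map_rel_iff.2 nb3.1) (φ.map_rel_iff.2 nb3.2.1)
    (φ.map_rel_iff.2 nb3.2.2)

theorem conn : (horned 3).Connected := by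
  have h : ∀ i : Fin 8, (horned 3).Reachable i 3 := by
    have a01 : (horned 3).Adj 0 1 := by decide
    have a12 : (horned 3).Adj 1 2 := by decide
    have a23 : (horned 3).Adj 2 3 := by decide
    have a45 : (horned 3).Adj 4 5 := by decide
    have a53 : (horned 3).Adj 5 3 := by decide
    have a65 : (horned 3).Adj 6 5 := by decide
    have a73 : (horned 3).Adj 7 3 := by decide
    have r2 := a23.reachable
    have r1 := a12.reachable.trans r2
    have r0 := a01.reachable.trans r1
    have r5 := a53.reachable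
    have r4 := a45.reachable.trans r5
    have r6 := a65.reachable.trans r5
    have r7 := a73.reachable
    intro i
    fin_cases i
    · exact r0
    · exact r1
    · exact r2
    · exact SimpleGraph.Reachable.refl _
    · exact r4
    · exact r5
    · exact r6
    · exact r7
  exact { preconnected := fun i j => (h i).trans (h j).symm, nonempty := ⟨0⟩ }

theorem edges : (horned 3).edgeFinset.card = 8 := by decide +kernel

/-- the cycle -/
def theCycle : (horned 3).Walk 3 3 :=
  .cons (show (horned 3).Adj 3 5 by decide) (.cons (show (horned 3).Adj 5 6 by decide)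
    (.cons (show (horned 3).Adj 6 7 by decide) (.cons (show (horned 3).Adj 7 3 by decide) .nil)))

theorem theCycle_isCycle : theCycle.IsCycle := by
  rw [SimpleGraph.Walk.isCycle_def]
  refine ⟨?_, ?_, ?_⟩
  · rw [SimpleGraph.Walk.isTrail_def]
    decide
  · intro h
    have h1 : theCycle.length = 0 := by rw [h]; rfl
    exact absurd h1 (by decide)
  · decide

theorem no_triangle : ∀ a b c : Fin 8, (horned 3).Adj a b → (horned 3).Adj b c →
    ¬ (horned 3).Adj c a := by decide +kernel

theorem girth4 : (horned 3).girth = 4 := by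
  apply le_antisymm
  · exact SimpleGraph.girth_le_length theCycle_isCycle
  · have hac : ¬ (horned 3).IsAcyclic := fun h => h _ theCycle_isCycle
    obtain ⟨a, w, hw, hl⟩ := SimpleGraph.exists_girth_eq_length.2 hac
    have h3 := SimpleGraph.three_le_girth hac
    by_contra hlt
    have h3' : w.length = 3 := by omega
    rcases w with _ | ⟨h1, w⟩
    · simp at h3'
    rcases w with _ | ⟨h2, w⟩
    · simp at h3'
    rcases w with _ | ⟨h4, w⟩
    · simp at h3'
    rcases w with _ | ⟨h5, w⟩
    · exact no_triangle _ _ _ h1 h2 h4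
    · simp at h3'

/-- **A unicyclic SSP graph of girth four which is neither a cycle nor a tadpole.** -/
theorem result :
    (∀ n : ℕ, 3 ≤ n → IsSSPGraph (horned n)) ∧
    IsSSPGraph (horned 3) ∧ (horned 3).Connected ∧ (horned 3).edgeFinset.card = 8 ∧
    (horned 3).girth = 4 ∧
    (∀ m k : ℕ, IsEmpty (horned 3 ≃g tadpole m k)) ∧
    (∀ m : ℕ, IsEmpty (horned 3 ≃g cycle m)) :=
  ⟨horned_ssp, horned_ssp 3 le_rfl, conn, edges, girth4, not_tadpole, not_cycle⟩

end Pool.Agent.Results.MP_3aeeeb_co.HornedTadpole
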